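import Pool.Agent.W845.TR.Base

set_option autoImplicit false
open scoped BigOperators

namespace Pool.Agent.W683.TR

open Pool.Agent.W845.TR

variable {d : ℕ}

/-- left ends -/
def lt' (W : Finset (S d)) (j : Fin d) : Finset (S d) := W.filter (fun y => y - ue j ∉ W)

theorem lt_card (W : Finset (S d)) (j : Fin d) : (lt' W j).card = (rt W j).card := by
  have h1 : (W.filter (fun y => y + ue j ∈ W)).card + (rt W j).card = W.card :=
    Finset.card_filter_add_card_filter_not (s := W) (fun y => y + ue j ∈ W)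
  have h2 : (W.filter (fun y => y - ue j ∈ W)).card + (lt' W j).card = W.card :=
    Finset.card_filter_add_card_filter_not (s := W) (fun y => y - ue j ∈ W)
  have h3 : (W.filter (fun y => y + ue j ∈ W)).card = (W.filter (fun y => y - ue j ∈ W)).card := by
    refine Finset.card_bij (fun y _ => y + ue j) ?_ ?_ ?_
    · intro y hy
      have hy' := Finset.mem_filter.1 hy
      exact Finset.mem_filter.2 ⟨hy'.2, by rw [add_sub_cancel_right]; exact hy'.1⟩
    · intro a _ b _ h
      exact add_right_cancel h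
    · intro y hy
      have hy' := Finset.mem_filter.1 hy
      exact ⟨y - ue j, Finset.mem_filter.2 ⟨hy'.2, by rw [sub_add_cancel]; exact hy'.1⟩,
        sub_add_cancel _ _⟩
  omega

theorem eb_card_le (W : Finset (S d)) : (eb W).card ≤ 2 * ∑ j, (rt W j).card := by
  have hsub : eb W ⊆ (Finset.univ.biUnion fun j => (rt W j).image (fun y => (y, j))) ∪
      (Finset.univ.biUnion fun j => (lt' W j).image (fun y => (y - ue j, j))) := by
    intro e he
    have he' := (Finset.mem_filter.1 he).2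
    rw [Finset.mem_union]
    by_cases h : e.1 ∈ W
    · left
      have h2 : e.1 + ue e.2 ∉ W := fun h3 => he' ⟨fun _ => h3, fun _ => h⟩
      exact Finset.mem_biUnion.2 ⟨e.2, Finset.mem_univ _, Finset.mem_image.2
        ⟨e.1, Finset.mem_filter.2 ⟨h, h2⟩, rfl⟩⟩
    · right
      have h2 : e.1 + ue e.2 ∈ W := by
        by_contra h3
        exact he' ⟨fun h4 => absurd h4 h, fun h4 => absurd h4 h3⟩
      refine Finset.mem_biUnion.2 ⟨e.2, Finset.mem_univ _, Finset.mem_image.2
        ⟨e.1 + ue e.2, Finset.mem_filter.2 ⟨h2, ?_⟩, ?_⟩⟩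
      · rw [add_sub_cancel_right]; exact h
      · rw [add_sub_cancel_right]
  refine (Finset.card_le_card hsub).trans ((Finset.card_union_le _ _).trans ?_)
  have h1 : (Finset.univ.biUnion fun j => (rt W j).image (fun y => (y, j))).card
      ≤ ∑ j, (rt W j).card :=
    Finset.card_biUnion_le.trans (Finset.sum_le_sum fun j _ => Finset.card_image_le)
  have h2 : (Finset.univ.biUnion fun j => (lt' W j).image (fun y => (y - ue j, j))).card
      ≤ ∑ j, (rt W j).card :=
    Finset.card_biUnion_le.trans (Finset.sum_le_sum fun j _ =>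
      Finset.card_image_le.trans (lt_card W j).le)
  omega

theorem exists_dir (hd : 1 ≤ d) (W : Finset (S d)) : ∃ j, (eb W).card ≤ 2 * d * (rt W j).card := by
  by_contra hcon
  push Not at hcon
  haveI : Nonempty (Fin d) := ⟨⟨0, by omega⟩⟩
  have h1 : ∑ j : Fin d, 2 * d * (rt W j).card < ∑ _j : Fin d, (eb W).card :=
    Finset.sum_lt_sum_of_nonempty Finset.univ_nonempty (fun j _ => hcon j)
  rw [← Finset.mul_sum, Finset.sum_const, Finset.card_univ, Fintype.card_fin, smul_eq_mul] at h1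
  have h2 := Nat.mul_le_mul_left d (eb_card_le W)
  have e : d * (2 * ∑ j, (rt W j).card) = 2 * d * ∑ j, (rt W j).card := by ring
  omega

open Classical in
theorem bad : St_SHIFT → St_PEI → St_CHN → St_KAPPA → St_BAD := by
  intro hS hP hC hK d hd ε hε
  obtain ⟨κ, hκ, hC⟩ := hC d hd (ε / 2) (by linarith)
  obtain ⟨p1, hp1, hp1', hK⟩ := hK κ hκ
  obtain ⟨p2, hp2, hp2', hP⟩ := hP d hd (ε / 2) (by linarith)
  refine ⟨min p1 p2, lt_min hp1 hp2, (min_le_right _ _).trans hp2', ?_⟩
  intro p hp hpp Lam hRay v hv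
  have q1 : p ≤ p1 := hpp.trans (min_le_left _ _)
  have q2 : p ≤ p2 := hpp.trans (min_le_right _ _)
  have q3 : p ≤ 1 := q2.trans hp2'
  have A1 := hP p hp q2 v Lam
  have A2 := hC p hp q3 (hK p hp q1) v (par v) Lam
  have hq : ∀ x ∈ Lam, (0 : ℝ) ≤ (fun _ : S d => p) x ∧
      (fun _ : S d => p) x ≤ 1 := fun x _ => ⟨hp.le, q3⟩
  have hor := Pr_or (fun _ => p) Lam
    (fun A => ∃ Wc : Finset (S d), Wc ⊆ Lam ∧ v ∈ Wc ∧ SqConn (eb Wc) ∧
      ∃ j, (eb Wc).card ≤ 4 * d * (rt Wc j ∩ A).card)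
    (fun A => ∃ Wc : Finset (S d), Wc ⊆ Lam ∧ v ∈ Wc ∧ SqConn (eb Wc) ∧
      ∃ j, ∀ π, Shf Wc j π →
        ((eb Wc).card : ℝ) / (4 * d) < (al Lam (par v) (A.image π) : ℝ) - (al Lam (par v) A : ℝ)) hq
  refine le_trans ?_ (hor.trans (by linarith))
  refine Pr_mono _ _ _ _ hq (fun A hA hE => ?_)
  obtain ⟨hvA, hI⟩ := hE
  obtain ⟨Wc, hvW, hWL, hcon, hshift⟩ := hS d (by omega) Lam hRay A v hv hvA hI
  obtain ⟨j, hj⟩ := exists_dir (by omega) Wc
  by_cases hle : (eb Wc).card ≤ 4 * d * (rt Wc j ∩ A).card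
  · exact Or.inl ⟨Wc, hWL, hvW, hcon, j, hle⟩
  · right
    refine ⟨Wc, hWL, hvW, hcon, j, fun π hπ => ?_⟩
    have h1 := hshift j π hπ
    have h2 : (rt Wc j \ A).card + (rt Wc j ∩ A).card = (rt Wc j).card :=
      Finset.card_sdiff_add_card_inter _ _
    have h3 : (eb Wc).card < 4 * d * (rt Wc j \ A).card := by
      have e1 : 4 * d * (rt Wc j \ A).card + 4 * d * (rt Wc j ∩ A).card
          = 2 * (2 * d * (rt Wc j).card) := by
        rw [← h2]; ring
      omega
    have hd0 : (0 : ℝ) < d := by exact_mod_cast (by omega : 0 < d)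
    have h4 : ((eb Wc).card : ℝ) < 4 * d * (rt Wc j \ A).card := by exact_mod_cast h3
    have h5 : ((eb Wc).card : ℝ) / (4 * d) < (rt Wc j \ A).card := by
      rw [div_lt_iff₀ (by positivity)]
      linarith
    have h6 : (al Lam (par v) A : ℝ) + (rt Wc j \ A).card ≤ (al Lam (par v) (A.image π) : ℝ) := by
      exact_mod_cast h1
    linarith

end Pool.Agent.W683.TR
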