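import Pool.Agent.W845.TR.Base

set_option autoImplicit false
open scoped BigOperators

namespace Pool.Agent.W683.TR

open Pool.Agent.W845.TR

variable {d : ℕ}

theorem al_congr (Lam : Finset (S d)) (b : Bool) (A A' : Finset (S d))
    (h : ∀ y ∈ Lam, (y ∈ A ↔ y ∈ A')) : al Lam b A = al Lam b A' := by
  unfold al
  congr 1
  ext y
  rw [mem_bd, mem_bd]
  by_cases hy : y ∈ Lam
  · have : y ∈ ((A : Set (S d))ᶜ) ↔ y ∈ ((A' : Set (S d))ᶜ) := by
      rw [Set.mem_compl_iff, Set.mem_compl_iff, Finset.mem_coe, Finset.mem_coe, h y hy]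
    rw [this]
  · simp [hy]

theorem al_image_inter (Lam W : Finset (S d)) (hW : W ⊆ Lam) (b : Bool) (A : Finset (S d))
    (j : Fin d) (π : Equiv.Perm (S d)) (hπ : Shf W j π) :
    al Lam b ((A ∩ Lam).image π) = al Lam b (A.image π) := by
  refine al_congr Lam b _ _ (fun y hy => ?_)
  simp only [Finset.mem_image, Finset.mem_inter]
  constructor
  · rintro ⟨z, ⟨hz, -⟩, h⟩
    exact ⟨z, hz, h⟩
  · rintro ⟨z, hz, h⟩
    refine ⟨z, ⟨hz, ?_⟩, h⟩
    by_contra hzL
    have hzW : z ∉ W := fun h1 => hzL (hW h1)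
    rw [hπ.2.1 z hzW] at h
    exact hzL (h ▸ hy)

theorem rt_card (W : Finset (S d)) (j : Fin d) : (rt W j).card ≤ (eb W).card := by
  refine Finset.card_le_card_of_injOn (fun y => (y, j)) (fun y hy => ?_) (fun a _ b _ h => ?_)
  · have hy' := Finset.mem_filter.1 (Finset.mem_coe.1 hy)
    refine Finset.mem_coe.2 (Finset.mem_filter.2 ⟨?_, ?_⟩)
    · exact Finset.mem_product.2 ⟨Finset.mem_union_left _ hy'.1, Finset.mem_univ _⟩
    · intro h
      exact hy'.2 (h.1 hy'.1)
  · exact (Prod.mk.inj h).1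

theorem symmDiff_card (W U U' : Finset (S d)) :
    (symmDiff U U').card ≤ (symmDiff W U).card + (symmDiff W U').card := by
  refine (Finset.card_le_card ?_).trans (Finset.card_union_le _ _)
  intro y hy
  rw [Finset.mem_union, Finset.mem_symmDiff, Finset.mem_symmDiff]
  rw [Finset.mem_symmDiff] at hy
  tauto

theorem shf_diff (U U' : Finset (S d)) (j : Fin d) (π π' : Equiv.Perm (S d)) (h : Shf U j π)
    (h' : Shf U' j π') (y : S d) (hy : π y ≠ π' y) :
    y ∈ symmDiff U U' ∪ rt U j ∪ rt U' j := by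
  by_contra hc
  simp only [Finset.mem_union, not_or, Finset.mem_symmDiff, rt, Finset.mem_filter, not_and,
    not_not] at hc
  obtain ⟨⟨h1, h2⟩, h3⟩ := hc
  by_cases hU : y ∈ U
  · have hU' : y ∈ U' := h1.1 hU
    exact hy (by rw [h.1 y hU (h2 hU), h'.1 y hU' (h3 hU')])
  · have hU' : y ∉ U' := fun h4 => hU (h1.2 h4)
    exact hy (by rw [h.2.1 y hU, h'.2.1 y hU'])

theorem geo_sum (K : ℕ) : ∑ k ∈ Finset.range K, ((7 : ℝ) / 8) ^ k ≤ 8 := by
  rw [geom_sum_eq (by norm_num)]
  have : (0 : ℝ) ≤ (7 / 8) ^ K := by positivity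
  rw [div_le_iff_of_neg (by norm_num)]
  linarith

theorem one_le_eb (hCG : St_CG) (hd : 1 ≤ d) (W : Finset (S d)) (v : S d) (hv : v ∈ W) :
    1 ≤ (eb W).card := by
  by_contra h
  have h0 : (eb W).card = 0 := by omega
  obtain ⟨h1, -, -, -, h5, -⟩ := hCG d hd 0 W
  obtain ⟨-, -, -, -, -, -, h7⟩ := hCG d hd 0 W
  have h8 : cgi 0 W = ∅ := h5 (by rw [h0]; simp)
  have h9 : cg 0 W = ∅ := by
    unfold cg; rw [h8]; simp
  rw [h9] at h7
  rw [← h7] at hv
  simp at hv

open Classical in
theorem chn : St_COUNT → St_DEV → St_PERM → St_CG → St_SUMA → St_CHN := by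
  intro hCOUNT hDEV hPERM hCG hSUMA d hd ε hε
  obtain ⟨C, hC, hcount⟩ := hCOUNT d hd
  obtain ⟨κ, hκ, hsum⟩ := hSUMA d C ε (by omega) hC hε
  refine ⟨κ, hκ, ?_⟩
  intro p hp hp1 hOB v b Lam
  choose P hP using hPERM d
  choose T hTc hT using hcount v
  have hq : ∀ B : Finset (S d), ∀ x ∈ B, (0 : ℝ) ≤ (fun _ : S d => p) x ∧
      (fun _ : S d => p) x ≤ 1 := fun B x _ => ⟨hp.le, hp1⟩
  -- the maximal length and the number of scales
  set n : ℕ := Lam.powerset.sup (fun W => (eb W).card) with hn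
  have hnle : ∀ W, W ⊆ Lam → (eb W).card ≤ n := fun W hW =>
    Finset.le_sup (f := fun W => (eb W).card) (Finset.mem_powerset.2 hW)
  set K : ℕ := 32 * d * n with hK
  have hK2 : ∀ W, W ⊆ Lam → 2 ^ (K * (d - 1)) > 32 * d * (eb W).card := by
    intro W hW
    have h1 : 32 * d * (eb W).card ≤ K := Nat.mul_le_mul_left _ (hnle W hW)
    have h2 : K < 2 ^ K := Nat.lt_two_pow_self
    have h3 : 2 ^ K ≤ 2 ^ (K * (d - 1)) := by
      apply Nat.pow_le_pow_right (by norm_num)
      exact Nat.le_mul_of_pos_right _ (by omega)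
    omega
  set B : Finset (S d) := Lam ∪ Lam.powerset.biUnion
    (fun W => (Finset.range (K + 1)).biUnion fun k => cg k W) with hB
  have hLB : Lam ⊆ B := Finset.subset_union_left
  have hcgB : ∀ W, W ⊆ Lam → ∀ k, k ≤ K → cg k W ⊆ B := by
    intro W hW k hk y hy
    refine Finset.mem_union_right _ (Finset.mem_biUnion.2 ⟨W, Finset.mem_powerset.2 hW, ?_⟩)
    exact Finset.mem_biUnion.2 ⟨k, Finset.mem_range.2 (by omega), hy⟩
  -- the thresholds
  set t : ℕ → ℕ → ℝ := fun l k => (7 / 8) ^ k * l / (32 * d) with ht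
  -- the elementary events
  set Q : ℕ → ℕ → Finset (S d) → Finset (S d) → Prop := fun l k u u' =>
    ∃ W, W ⊆ Lam ∧ v ∈ W ∧ SqConn (eb W) ∧ (eb W).card = l ∧ cgi k W = u ∧ cgi (k + 1) W = u'
    with hQ
  set F : ℕ → ℕ → Fin d → Finset (S d) → Finset (S d) → Finset (S d) → Prop :=
    fun l k j u u' A => Q l k u u' ∧ t l k ≤ (al Lam b (A.image (P (u.biUnion (cub k)) j)) : ℝ) -
      (al Lam b (A.image (P (u'.biUnion (cub (k + 1))) j)) : ℝ) with hF
  set ex : ℕ → ℕ → ℝ := fun l k => Real.exp (-((7 / 8) ^ k * l / (32 * d)) ^ 2 /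
    (16 * κ * (70 * d * 2 ^ k * l))) with hex
  have hd0 : (0 : ℝ) < d := by exact_mod_cast (by omega : 0 < d)
  have hd3 : (3 : ℝ) ≤ d := by exact_mod_cast hd
  -- probability of one elementary event
  have hone : ∀ l k j u u', 1 ≤ l → k < K → Pr (fun _ => p) B (F l k j u u') ≤ ex l k := by
    intro l k j u u' hl hk
    by_cases hQQ : Q l k u u'
    · obtain ⟨W, hW, hvW, hcon, hcard, hu, hu'⟩ := hQQ
      have hl' : (1 : ℝ) ≤ l := by exact_mod_cast hl
      set U := u.biUnion (cub k) with hU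
      set U' := u'.biUnion (cub (k + 1)) with hU'
      have eU : cg k W = U := by rw [hU, ← hu]; rfl
      have eU' : cg (k + 1) W = U' := by rw [hU', ← hu']; rfl
      obtain ⟨a1, -, a3, -⟩ := hCG d (by omega) k W
      obtain ⟨b1, -, b3, -⟩ := hCG d (by omega) (k + 1) W
      rw [eU] at a1 a3
      rw [eU'] at b1 b3
      set R : Finset (S d) := insert v (symmDiff U U' ∪ rt U j ∪ rt U' j) with hR
      have hR1 : 1 ≤ R.card := Finset.card_pos.2 ⟨v, Finset.mem_insert_self _ _⟩
      have hR2 : R.card ≤ 70 * d * 2 ^ k * l := by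
        have c1 : R.card ≤ (symmDiff U U' ∪ rt U j ∪ rt U' j).card + 1 :=
          Finset.card_insert_le _ _
        have c2 := Finset.card_union_le (symmDiff U U' ∪ rt U j) (rt U' j)
        have c3 := Finset.card_union_le (symmDiff U U') (rt U j)
        have c4 := symmDiff_card W U U'
        have c5 := rt_card U j
        have c6 := rt_card U' j
        rw [hcard] at a1 a3 b1 b3
        have c7 : R.card ≤ 6 * (2 ^ k * l) + 64 * (d * l) + 1 := by
          have e1 : 2 * 2 ^ (k + 1) * l = 4 * (2 ^ k * l) := by rw [pow_succ]; ring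
          have e2 : 2 * 2 ^ k * l = 2 * (2 ^ k * l) := by ring
          have e3 : 32 * d * l = 32 * (d * l) := by ring
          rw [e1] at b1
          rw [e2] at a1
          rw [e3] at a3 b3
          omega
        have e4 : 1 ≤ 2 ^ k := Nat.one_le_two_pow
        have e5 : d * l ≤ d * (2 ^ k * l) :=
          Nat.mul_le_mul_left _ (Nat.le_mul_of_pos_left _ (by omega))
        have e6 : 1 ≤ 2 ^ k * l := Nat.mul_pos (by omega) hl
        have e7 : 3 * (2 ^ k * l) ≤ d * (2 ^ k * l) := Nat.mul_le_mul_right _ hd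
        have e8 : 70 * d * 2 ^ k * l = 70 * (d * (2 ^ k * l)) := by ring
        rw [e8]
        omega
      have hdev := hDEV d p κ Lam B R b (P U j) (P U' j) hp.le hp1 hκ hOB
        (fun y hy => (hP U j).2.1 y (fun h => hy (hcgB W hW k (by omega) (eU ▸ h))))
        (fun y hy => (hP U' j).2.1 y (fun h => hy (hcgB W hW (k + 1) (by omega) (eU' ▸ h))))
        (fun y hy => Finset.mem_insert_of_mem (shf_diff U U' j _ _ (hP U j) (hP U' j) y hy))
        (t l k) (by rw [ht]; positivity)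
      refine (Pr_mono _ B _ _ (hq B) (fun A _ hA => hA.2)).trans (hdev.trans ?_)
      rw [hex]
      simp only
      apply Real.exp_le_exp.2
      rw [neg_div, neg_div]
      apply neg_le_neg
      have hR1' : (1 : ℝ) ≤ R.card := by exact_mod_cast hR1
      have hR2' : (R.card : ℝ) ≤ 70 * d * 2 ^ k * l := by exact_mod_cast hR2
      apply div_le_div_of_nonneg_left (by positivity) (by positivity)
      exact mul_le_mul_of_nonneg_left hR2' (by positivity)
    · have : Pr (fun _ => p) B (F l k j u u') = 0 := by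
        have h0 : ∀ A, ¬ F l k j u u' A := fun A hA => hQQ hA.1
        unfold Pr
        simp only [h0, if_false]
        rw [Ex_const]
      rw [this, hex]
      positivity
  -- the event is covered
  set Ev : Finset (S d) → Prop := fun A => ∃ Wc : Finset (S d), Wc ⊆ Lam ∧ v ∈ Wc ∧
    SqConn (eb Wc) ∧ ∃ j, ∀ π, Shf Wc j π →
      ((eb Wc).card : ℝ) / (4 * d) < (al Lam b (A.image π) : ℝ) - (al Lam b A : ℝ) with hEv
  have hcov : ∀ A, Ev (A ∩ Lam) → ∃ l ∈ Finset.Icc 1 n,
      ∃ k ∈ (Finset.range K).filter (fun k => 4 ^ k ≤ 32 * d * l), ∃ j ∈ (Finset.univ : Finset (Fin d)),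
      ∃ u ∈ T l k, ∃ u' ∈ T l (k + 1), F l k j u u' A := by
    intro A hA
    obtain ⟨W, hW, hvW, hcon, j, hj⟩ := hA
    set l := (eb W).card with hl
    have hl1 : 1 ≤ l := one_le_eb hCG (by omega) W v hvW
    have hln : l ≤ n := hnle W hW
    have h1 := hj (P W j) (hP W j)
    rw [al_image_inter Lam W hW b A j _ (hP W j),
      al_congr Lam b (A ∩ Lam) A (fun y hy => by simp [hy])] at h1
    -- the telescoping sum
    set g : ℕ → ℝ := fun k => (al Lam b (A.image (P (cg k W) j)) : ℝ) with hg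
    have hzero : ∀ k, 2 ^ (k * (d - 1)) > 32 * d * l → cg k W = ∅ := by
      intro k hk
      have := (hCG d (by omega) k W).2.2.2.2.1 hk
      unfold cg
      rw [this]
      simp
    have hg0 : g 0 = (al Lam b (A.image (P W j)) : ℝ) := by
      rw [hg]
      simp only
      rw [(hCG d (by omega) 0 W).2.2.2.2.2.2]
    have hPe : P ∅ j = 1 := by
      ext1 y
      exact (hP ∅ j).2.1 y (by simp)
    have hgK : g K = (al Lam b A : ℝ) := by
      rw [hg]
      simp only
      rw [hzero K (hK2 W hW), hPe]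
      congr 2
      ext y
      simp
    have htel : ∑ k ∈ Finset.range K, (g k - g (k + 1)) = g 0 - g K :=
      Finset.sum_range_sub' g K
    have hex1 : ∃ k ∈ (Finset.range K).filter (fun k => 4 ^ k ≤ 32 * d * l),
        t l k ≤ g k - g (k + 1) := by
      by_contra hcon
      push Not at hcon
      have hk0 : ∀ k, ¬ (4 ^ k ≤ 32 * d * l) → cg k W = ∅ := by
        intro k hk
        apply hzero
        have h2 : 4 ^ k ≤ 2 ^ (k * (d - 1)) := by
          have : 4 ^ k = 2 ^ (k * 2) := by rw [mul_comm, pow_mul]; norm_num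
          rw [this]
          apply Nat.pow_le_pow_right (by norm_num)
          exact Nat.mul_le_mul_left _ (by omega)
        omega
      have h2 : ∑ k ∈ Finset.range K, (g k - g (k + 1)) ≤ ∑ k ∈ Finset.range K, t l k := by
        refine Finset.sum_le_sum (fun k hk => ?_)
        by_cases h4 : 4 ^ k ≤ 32 * d * l
        · exact (hcon k (Finset.mem_filter.2 ⟨hk, h4⟩)).le
        · have h5 : ¬ (4 ^ (k + 1) ≤ 32 * d * l) := by
            rw [pow_succ]; omega
          have h6 : g k - g (k + 1) = 0 := by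
            rw [hg]
            simp only
            rw [hk0 k h4, hk0 (k + 1) h5]
            ring
          rw [h6, ht]
          positivity
      have h3 : ∑ k ∈ Finset.range K, t l k ≤ (l : ℝ) / (4 * d) := by
        have e : ∑ k ∈ Finset.range K, t l k
            = (∑ k ∈ Finset.range K, ((7 : ℝ) / 8) ^ k) * (l / (32 * d)) := by
          rw [Finset.sum_mul]
          exact Finset.sum_congr rfl (fun k _ => by rw [ht]; ring)
        rw [e]
        calc (∑ k ∈ Finset.range K, ((7 : ℝ) / 8) ^ k) * (l / (32 * d))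
            ≤ 8 * (l / (32 * d)) := mul_le_mul_of_nonneg_right (geo_sum K) (by positivity)
          _ = (l : ℝ) / (4 * d) := by field_simp; norm_num
      rw [htel, hg0, hgK] at h2
      linarith
    obtain ⟨k, hk, hkt⟩ := hex1
    refine ⟨l, Finset.mem_Icc.2 ⟨hl1, hln⟩, k, hk, j, Finset.mem_univ _, cgi k W,
      hT l k W hvW hcon rfl, cgi (k + 1) W, hT l (k + 1) W hvW hcon rfl, ?_⟩
    exact ⟨⟨W, hW, hvW, hcon, rfl, rfl, rfl⟩, hkt⟩
  -- passage to the big box
  have hbox : Pr (fun _ => p) Lam Ev = Pr (fun _ => p) B (fun A => Ev (A ∩ Lam)) := by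
    rw [Pr_marg (fun _ => p) Lam B hLB (fun A => Ev (A ∩ Lam)) (fun A _ => by
      rw [Finset.inter_assoc, Finset.inter_self])]
    refine Pr_congr _ _ _ _ (fun A hA => ?_)
    rw [Finset.inter_eq_left.2 hA]
  change Pr (fun _ => p) Lam Ev ≤ ε
  rw [hbox]
  refine (Pr_mono _ B _ _ (hq B) (fun A _ hA => hcov A hA)).trans ?_
  refine (Pr_exists _ B _ _ (hq B)).trans ?_
  refine le_trans ?_ (hsum n K)
  refine Finset.sum_le_sum (fun l hl => ?_)
  have hl1 : 1 ≤ l := (Finset.mem_Icc.1 hl).1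
  refine (Pr_exists _ B _ _ (hq B)).trans ?_
  refine Finset.sum_le_sum (fun k hk => ?_)
  have hkK : k < K := Finset.mem_range.1 (Finset.mem_filter.1 hk).1
  refine (Pr_exists _ B _ _ (hq B)).trans ?_
  have hj : ∀ j ∈ (Finset.univ : Finset (Fin d)),
      Pr (fun _ => p) B (fun A => ∃ u ∈ T l k, ∃ u' ∈ T l (k + 1), F l k j u u' A)
      ≤ Real.exp (2 * C * ((k + 1) * l / 4 ^ k + 1)) * ex l k := by
    intro j _
    refine (Pr_exists _ B _ _ (hq B)).trans ?_
    have hu : ∀ u ∈ T l k, Pr (fun _ => p) B (fun A => ∃ u' ∈ T l (k + 1), F l k j u u' A)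
        ≤ (T l (k + 1)).card * ex l k := by
      intro u _
      refine (Pr_exists _ B _ _ (hq B)).trans ?_
      refine (Finset.sum_le_sum (fun u' _ => hone l k j u u' hl1 hkK)).trans ?_
      rw [Finset.sum_const, nsmul_eq_mul]
    refine (Finset.sum_le_sum hu).trans ?_
    rw [Finset.sum_const, nsmul_eq_mul, ← mul_assoc]
    have hex0 : 0 ≤ ex l k := by rw [hex]; positivity
    refine mul_le_mul_of_nonneg_right ?_ hex0
    have e1 : ((T l k).card : ℝ) * (T l (k + 1)).card
        ≤ Real.exp (C * ((k + 1) * l / 4 ^ k + 1)) *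
          Real.exp (C * (((k + 1 : ℕ) + 1) * l / 4 ^ (k + 1) + 1)) :=
      mul_le_mul (hTc l k) (hTc l (k + 1)) (Nat.cast_nonneg _) (Real.exp_pos _).le
    refine e1.trans ?_
    rw [← Real.exp_add]
    apply Real.exp_le_exp.2
    have e2 : (((k + 1 : ℕ) : ℝ) + 1) * l / 4 ^ (k + 1) ≤ (k + 1) * l / 4 ^ k := by
      rw [div_le_div_iff₀ (by positivity) (by positivity), pow_succ]
      push_cast
      have e3 : (0 : ℝ) ≤ l * 4 ^ k := by positivity
      have e4 : (0 : ℝ) ≤ k := Nat.cast_nonneg _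
      nlinarith
    have e5 : C * ((((k + 1 : ℕ) : ℝ) + 1) * l / 4 ^ (k + 1) + 1)
        ≤ C * ((k + 1) * l / 4 ^ k + 1) := by
      apply mul_le_mul_of_nonneg_left _ hC.le
      linarith
    linarith
  refine (Finset.sum_le_sum hj).trans ?_
  rw [Finset.sum_const, nsmul_eq_mul, Finset.card_univ, Fintype.card_fin, ← mul_assoc]

end Pool.Agent.W683.TR
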