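import Pool.Agent.W845.TR.Base

set_option autoImplicit false
open scoped BigOperators
open MeasureTheory

namespace Pool.Agent.W683.TR

open Pool.Agent.W845.TR

variable {d : ℕ}

theorem bern_sing (p : unitInterval) (c : Bool) :
    bern p {c} = ENNReal.ofReal (if c = true then (p : ℝ) else 1 - p) := by
  unfold bern
  cases c <;> simp

open Classical in
/-- cylinders -/
def cyl (B A : Finset (S d)) : Set (S d → Bool) :=
  Set.pi (B : Set (S d)) (fun x => {decide (x ∈ A)})

theorem cyl_meas (B A : Finset (S d)) : MeasurableSet (cyl B A) :=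
  MeasurableSet.pi (Set.to_countable _) (fun x _ => measurableSet_singleton _)

theorem mem_cyl (B A : Finset (S d)) (hA : A ⊆ B) (ω : S d → Bool) :
    ω ∈ cyl B A ↔ B.filter (fun x => ω x = true) = A := by
  unfold cyl
  rw [Set.mem_pi]
  constructor
  · intro h
    ext x
    rw [Finset.mem_filter]
    constructor
    · rintro ⟨hx, hω⟩
      have := h x hx
      rw [Set.mem_singleton_iff, hω] at this
      simpa using this.symm
    · intro hx
      refine ⟨hA hx, ?_⟩
      have := h x (hA hx)
      rw [Set.mem_singleton_iff] at this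
      rw [this]
      simpa using hx
  · intro h x hx
    rw [Set.mem_singleton_iff, ← h]
    have hx' : x ∈ B := hx
    cases hω : ω x <;> simp [hx', hω]

theorem cyl_prob (p : unitInterval) (B A : Finset (S d)) :
    Perc d p (cyl B A) = ENNReal.ofReal (wt (fun _ => (p : ℝ)) B A) := by
  unfold Perc cyl
  rw [Measure.infinitePi_pi _ (fun x _ => measurableSet_singleton _)]
  unfold wt
  have h0 := p.2.1
  have h1 := p.2.2
  rw [ENNReal.ofReal_prod_of_nonneg]
  · refine Finset.prod_congr rfl (fun x _ => ?_)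
    rw [bern_sing]
    congr 1
    by_cases h : x ∈ A <;> simp [h]
  · intro x _
    split_ifs <;> linarith

open Classical in
theorem event_eq (B : Finset (S d)) (E : Finset (S d) → Prop) :
    {ω : S d → Bool | E (B.filter (fun x => ω x = true))} =
      ⋃ A ∈ B.powerset.filter E, cyl B A := by
  ext ω
  simp only [Set.mem_setOf_eq, Set.mem_iUnion, exists_prop, Finset.mem_filter,
    Finset.mem_powerset]
  constructor
  · intro h
    refine ⟨_, ⟨Finset.filter_subset _ _, h⟩, ?_⟩
    exact (mem_cyl B _ (Finset.filter_subset _ _) ω).2 rfl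
  · rintro ⟨A, ⟨hA, hE⟩, h⟩
    rw [(mem_cyl B A hA ω).1 h]
    exact hE

open Classical in
theorem bri : St_BRI := by
  intro d p B E
  have h0 := p.2.1
  have h1 := p.2.2
  have hq : ∀ x ∈ B, (0 : ℝ) ≤ (fun _ : S d => (p : ℝ)) x ∧
      (fun _ : S d => (p : ℝ)) x ≤ 1 := fun x _ => ⟨h0, h1⟩
  rw [event_eq]
  refine ⟨Finset.measurableSet_biUnion _ (fun A _ => cyl_meas B A), ?_⟩
  rw [measure_biUnion_finset]
  · unfold Pr Ex
    rw [Finset.sum_congr rfl (fun A _ => cyl_prob p B A)]
    rw [← ENNReal.ofReal_sum_of_nonneg (fun A _ => wt_nonneg _ B A hq)]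
    congr 1
    rw [Finset.sum_filter]
    refine Finset.sum_congr rfl (fun A _ => ?_)
    by_cases h : E A <;> simp [h]
  · intro A hA A' hA' hne
    have hA := (Finset.mem_powerset.1 (Finset.mem_filter.1 (Finset.mem_coe.1 hA)).1)
    have hA' := (Finset.mem_powerset.1 (Finset.mem_filter.1 (Finset.mem_coe.1 hA')).1)
    refine Set.disjoint_left.2 (fun ω h1 h2 => hne ?_)
    rw [← (mem_cyl B A hA ω).1 h1, ← (mem_cyl B A' hA' ω).1 h2]
  · intro A _
    exact cyl_meas B A

end Pool.Agent.W683.TR
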